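import Pool.Agent.H.MP_83e36b_nt.wa.Dens
import Pool.Agent.H.MP_83e36b_nt.PlaceDefs
import Pool.Agent.H.MP_83e36b_nt.I1a

/-! Weak approximation at all places. -/

set_option autoImplicit false

open Polynomial NumberField IsDedekindDomain

namespace WA83

open CM83 NR83 AnWA

universe u w

/-- every completion contains elements of norm greater than one -/
theorem exists_one_lt_norm {k : Type*} [Field k] [NumberField k]
    (T : Finset (HeightOneSpectrum (𝓞 k))) (i) : ∃ x : Compl T i, 1 < ‖x‖ := by
  rcases i with v | v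
  · refine ⟨complEmb T (Sum.inl v) 2, ?_⟩
    rw [norm_complEmb]
    show 1 < v (2 : k)
    rw [← InfinitePlace.norm_embedding_eq v 2, map_ofNat]
    norm_num
  · let iN : NontriviallyNormedField (v.1.adicCompletion k) :=
      Valued.toNontriviallyNormedField (v.1.adicCompletion k) (WithZero (Multiplicative ℤ))
    exact iN.non_trivial

/-- the completions are complete -/
theorem complete_compl {k : Type*} [Field k] [NumberField k]
    (T : Finset (HeightOneSpectrum (𝓞 k))) (i) : CompleteSpace (Compl T i) := by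
  rcases i with v | v
  · exact inferInstanceAs (CompleteSpace v.Completion)
  · exact inferInstanceAs (CompleteSpace (v.1.adicCompletion k))

/-- convergence of points -/
theorem Pts.tendsto {k : Type*} [CommRing k] {R : Type*} [NormedField R] {m : ℕ}
    {f g : (MvPolynomial (Fin m) k)[X]} {φ : k →+* R} (p : ℕ → Pts f g φ)
    (q : Pts f g φ)
    (h1 : ∀ (N : ℕ) (i : Fin m), ‖(p N).1.1 i - q.1.1 i‖ < 1 / ((N : ℝ) + 1))
    (h2 : ∀ N : ℕ, ‖(p N).1.2 - q.1.2‖ < 1 / ((N : ℝ) + 1)) :
    Filter.Tendsto p Filter.atTop (nhds q) := by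
  have key : Filter.Tendsto (fun N => (p N).1) Filter.atTop (nhds q.1) := by
    rw [Prod.tendsto_iff]
    constructor
    · rw [tendsto_pi_nhds]
      intro i
      rw [tendsto_iff_norm_sub_tendsto_zero]
      exact squeeze_zero (fun _ => norm_nonneg _) (fun N => (h1 N i).le)
        tendsto_one_div_add_atTop_nhds_zero_nat
    · rw [tendsto_iff_norm_sub_tendsto_zero]
      exact squeeze_zero (fun _ => norm_nonneg _) (fun N => (h2 N).le)
        tendsto_one_div_add_atTop_nhds_zero_nat
  exact tendsto_subtype_rng.2 key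

/-- the places of a finite set -/
theorem dense_fin {k : Type u} [Field k] [NumberField k] {m : ℕ}
    {f g : (MvPolynomial (Fin m) k)[X]} {F : Type w} [Field F] [Algebra k F] {ξ : Fin m → F}
    {η : F} (h : Generic f F ξ η) (hg : evP (algebraMap k F) ξ η g ≠ 0)
    (hst : StablyIso k F k) (T : Finset (HeightOneSpectrum (𝓞 k))) :
    DenseRange (fun p : Pts f g (RingHom.id k) =>
      ((fun v : InfinitePlace k => mapPts (algebraMap k v.Completion) p),
       (fun v : T => mapPts (algebraMap k (v.1.adicCompletion k)) p))) := by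
  rintro ⟨A, B⟩
  have : ∀ i, CompleteSpace (Compl T i) := complete_compl T
  -- the data at all places
  let D : ∀ i, Pts f g (complEmb T i) := fun i =>
    match i with
    | Sum.inl v => A v
    | Sum.inr v => B v
  have hex : ∀ N : ℕ, ∃ p : Pts f g (RingHom.id k), ∀ i,
      (∀ j : Fin m, ‖(mapPts (complEmb T i) p).1.1 j - (D i).1.1 j‖ < 1 / ((N : ℝ) + 1)) ∧
      ‖(mapPts (complEmb T i) p).1.2 - (D i).1.2‖ < 1 / ((N : ℝ) + 1) := fun N =>
    dens h hg hst (exists_one_lt_norm T) (complEmb T) (fieldWA_numberField T) D (by positivity)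
  choose p hp using hex
  refine mem_closure_of_tendsto (f := fun N => ((fun v : InfinitePlace k =>
    mapPts (algebraMap k v.Completion) (p N)),
    (fun v : T => mapPts (algebraMap k (v.1.adicCompletion k)) (p N)))) (b := Filter.atTop) ?_
    (Filter.Eventually.of_forall fun N => ⟨p N, rfl⟩)
  rw [Prod.tendsto_iff]
  constructor
  · rw [tendsto_pi_nhds]
    intro v
    exact Pts.tendsto _ _ (fun N j => (hp N (Sum.inl v)).1 j) (fun N => (hp N (Sum.inl v)).2)
  · rw [tendsto_pi_nhds]
    intro v
    exact Pts.tendsto _ _ (fun N j => (hp N (Sum.inr v)).1 j) (fun N => (hp N (Sum.inr v)).2)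

/-- Proof: as `DiscRat.dense_of_discWA`, `DiscRat.main_all_n` (Pool/Agent/H/DiscRat/VFinal.lean), with
`dens` for `K = Compl T`, `complEmb T`, `fieldWA_numberField`, `exists_one_lt_norm`; the completeness of
`Compl T i` by cases. -/
theorem dense_all {k : Type u} [Field k] [NumberField k] {m : ℕ}
    {f g : (MvPolynomial (Fin m) k)[X]} {F : Type w} [Field F] [Algebra k F] {ξ : Fin m → F}
    {η : F} (h : Generic f F ξ η) (hg : evP (algebraMap k F) ξ η g ≠ 0)
    (hst : StablyIso k F k) :
    DenseRange (fun p : Pts f g (RingHom.id k) =>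
      ((fun v : InfinitePlace k => mapPts (algebraMap k v.Completion) p),
       (fun v : HeightOneSpectrum (𝓞 k) => mapPts (algebraMap k (v.adicCompletion k)) p))) := by
  classical
  rintro ⟨A, B⟩
  rw [mem_closure_iff_nhds]
  intro U hU
  rw [nhds_prod_eq, Filter.mem_prod_iff] at hU
  obtain ⟨U1, hU1, U2, hU2, hsub⟩ := hU
  rw [nhds_pi, Filter.mem_pi] at hU2
  obtain ⟨S, hS, t, ht, hts⟩ := hU2
  have hdense := dense_fin h hg hst hS.toFinset
  have h1 := hdense (A, fun v => B v.1)
  rw [mem_closure_iff_nhds] at h1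
  have hnhds : U1 ×ˢ (Set.pi Set.univ (fun v : {v // v ∈ hS.toFinset} => t v.1)) ∈
      nhds (A, fun v : {v // v ∈ hS.toFinset} => B v.1) := by
    rw [nhds_prod_eq]
    refine Filter.prod_mem_prod hU1 ?_
    exact set_pi_mem_nhds Set.finite_univ (fun v _ => ht v.1)
  obtain ⟨_, ⟨hp1, hp2⟩, p, rfl⟩ := h1 _ hnhds
  refine ⟨_, hsub ⟨hp1, hts ?_⟩, p, rfl⟩
  intro v hv
  exact hp2 ⟨v, hS.mem_toFinset.mpr hv⟩ (Set.mem_univ _)

end WA83
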