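import Mathlib

/-! Hypersurface models of varieties and their points. -/

set_option autoImplicit false

open Polynomial

namespace WA83

universe u v w

/-- the value of a polynomial of `k[x_1, ..., x_m][y]` at a point of `L^m × L`, for a
homomorphism `φ : k → L` -/
noncomputable def evP {k : Type u} {L : Type v} [CommRing k] [CommRing L] (φ : k →+* L) {m : ℕ}
    (x : Fin m → L) (y : L) : (MvPolynomial (Fin m) k)[X] →+* L :=
  Polynomial.eval₂RingHom (MvPolynomial.eval₂Hom φ x) y

/-- the points `(x, y)` with `f(x, y) = 0`, `∂f/∂y(x, y) ≠ 0`, `g(x, y) ≠ 0` -/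
def Pts {k : Type u} {L : Type v} [CommRing k] [CommRing L] {m : ℕ}
    (f g : (MvPolynomial (Fin m) k)[X]) (φ : k →+* L) : Set ((Fin m → L) × L) :=
  {p | evP φ p.1 p.2 f = 0 ∧ evP φ p.1 p.2 (derivative f) ≠ 0 ∧ evP φ p.1 p.2 g ≠ 0}

theorem evP_comp {k : Type u} {L : Type v} [Field k] [Field L] (φ : k →+* L) {m : ℕ}
    (x : Fin m → k) (y : k) (p : (MvPolynomial (Fin m) k)[X]) :
    evP φ (fun i => φ (x i)) (φ y) p = φ (evP (RingHom.id k) x y p) := by
  have h : evP φ (fun i => φ (x i)) (φ y) = φ.comp (evP (RingHom.id k) x y) := by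
    unfold evP
    ext <;> simp
  rw [h]
  rfl

/-- the map on points -/
def mapPts {k : Type u} {L : Type v} [Field k] [Field L] {m : ℕ}
    {f g : (MvPolynomial (Fin m) k)[X]} (φ : k →+* L) (p : Pts f g (RingHom.id k)) :
    Pts f g φ :=
  ⟨(fun i => φ (p.1.1 i), φ p.1.2), by
    refine ⟨?_, ?_, ?_⟩
    · rw [evP_comp, p.2.1, map_zero]
    · rw [evP_comp]
      exact fun h => p.2.2.1 ((map_eq_zero φ).1 h)
    · rw [evP_comp]
      exact fun h => p.2.2.2 ((map_eq_zero φ).1 h)⟩

/-- `(ξ, η)` is a generic point of the hypersurface `f = 0` over `k`, with field of functions `F`: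
`F = k(ξ)(η)`, the `ξ_i` are algebraically independent, `f(ξ, η) = 0`, and `f` is irreducible in
`k[x][y]` and depends on `y`. -/
structure Generic {k : Type u} [Field k] {m : ℕ} (f : (MvPolynomial (Fin m) k)[X]) (F : Type w)
    [Field F] [Algebra k F] (ξ : Fin m → F) (η : F) : Prop where
  irr : Irreducible f
  deg : derivative f ≠ 0
  ind : AlgebraicIndependent k ξ
  zero : evP (algebraMap k F) ξ η f = 0
  top : IntermediateField.adjoin k (insert η (Set.range ξ)) = ⊤

end WA83
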