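import Pool.Agent.H.MP_83e36b_nt.wa.Defs

/-! The implicit function theorem for hypersurfaces over complete fields; non-zero polynomials on
small boxes. -/

set_option autoImplicit false

open Polynomial

namespace WA83

universe u v

private theorem Local_evP_C {k : Type u} {L : Type v} [CommRing k] [CommRing L] (φ : k →+* L)
    {m : ℕ} (x : Fin m → L) (y : L) (a : MvPolynomial (Fin m) k) :
    evP φ x y (C a) = MvPolynomial.eval₂ φ x a := by
  simp [evP]

private theorem Local_evP_X {k : Type u} {L : Type v} [CommRing k] [CommRing L] (φ : k →+* L)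
    {m : ℕ} (x : Fin m → L) (y : L) :
    evP φ x y X = y := by
  simp [evP]

/-- strict derivative of a polynomial function of `x`, seen as a function of `(x, y)` -/
private theorem Local_sd1 {k : Type u} [Field k] {K : Type v} [NontriviallyNormedField K]
    (φ : k →+* K) {m : ℕ} (a : MvPolynomial (Fin m) k) (p : (Fin m → K) × K) :
    ∃ f' : ((Fin m → K) × K) →L[K] K,
      HasStrictFDerivAt (fun p : (Fin m → K) × K => MvPolynomial.eval₂ φ p.1 a) f' p ∧
        f' (0, 1) = 0 := by
  induction a using MvPolynomial.induction_on with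
  | C c =>
    refine ⟨0, ?_, rfl⟩
    simp only [MvPolynomial.eval₂_C]
    exact hasStrictFDerivAt_const _ _
  | add a b ha hb =>
    obtain ⟨f1, h1, e1⟩ := ha
    obtain ⟨f2, h2, e2⟩ := hb
    refine ⟨f1 + f2, ?_, ?_⟩
    · simp only [MvPolynomial.eval₂_add]
      exact h1.add h2
    · rw [add_apply, e1, e2, add_zero]
  | mul_X a i ha =>
    obtain ⟨f1, h1, e1⟩ := ha
    have h2 : HasStrictFDerivAt (fun p : (Fin m → K) × K => p.1 i)
        ((ContinuousLinearMap.proj (R := K) (φ := fun _ : Fin m => K) i).comp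
          (ContinuousLinearMap.fst K (Fin m → K) K)) p :=
      ((ContinuousLinearMap.proj (R := K) (φ := fun _ : Fin m => K) i).comp
        (ContinuousLinearMap.fst K (Fin m → K) K)).hasStrictFDerivAt
    have e : (fun p : (Fin m → K) × K => MvPolynomial.eval₂ φ p.1 (a * MvPolynomial.X i)) =
        fun p : (Fin m → K) × K => MvPolynomial.eval₂ φ p.1 a * p.1 i := by
      funext p
      rw [MvPolynomial.eval₂_mul, MvPolynomial.eval₂_X]
    have h3 := h1.mul h2
    rw [e]
    refine ⟨_, h3, ?_⟩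
    simp [e1]

/-- strict derivative of a polynomial function of `(x, y)` -/
private theorem Local_sd {k : Type u} [Field k] {K : Type v} [NontriviallyNormedField K]
    (φ : k →+* K) {m : ℕ} (f : (MvPolynomial (Fin m) k)[X]) (p : (Fin m → K) × K) :
    ∃ f' : ((Fin m → K) × K) →L[K] K,
      HasStrictFDerivAt (fun p : (Fin m → K) × K => evP φ p.1 p.2 f) f' p ∧
        f' (0, 1) = evP φ p.1 p.2 (derivative f) := by
  induction f using Polynomial.induction_on with
  | C a =>
    obtain ⟨f1, h1, e1⟩ := Local_sd1 φ a p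
    refine ⟨f1, ?_, ?_⟩
    · simp only [Local_evP_C]
      exact h1
    · rw [e1, derivative_C, map_zero]
  | add a b ha hb =>
    obtain ⟨f1, h1, e1⟩ := ha
    obtain ⟨f2, h2, e2⟩ := hb
    refine ⟨f1 + f2, ?_, ?_⟩
    · simp only [map_add]
      exact h1.add h2
    · rw [add_apply, e1, e2, derivative_add, map_add]
  | monomial n a ha =>
    obtain ⟨f1, h1, e1⟩ := ha
    have h2 : HasStrictFDerivAt (fun p : (Fin m → K) × K => p.2)
        (ContinuousLinearMap.snd K (Fin m → K) K) p :=
      (ContinuousLinearMap.snd K (Fin m → K) K).hasStrictFDerivAt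
    have e : (fun p : (Fin m → K) × K => evP φ p.1 p.2 (C a * X ^ (n + 1))) =
        fun p : (Fin m → K) × K => evP φ p.1 p.2 (C a * X ^ n) * p.2 := by
      funext p
      rw [pow_succ, ← mul_assoc, map_mul, Local_evP_X]
    have h3 := h1.mul h2
    rw [e]
    refine ⟨_, h3, ?_⟩
    · have e3 : (C a * X ^ (n + 1) : (MvPolynomial (Fin m) k)[X]) = (C a * X ^ n) * X := by
        rw [pow_succ, mul_assoc]
      have e4 : evP φ p.1 p.2 (derivative (C a * X ^ (n + 1))) =
          evP φ p.1 p.2 (derivative (C a * X ^ n)) * p.2 + evP φ p.1 p.2 (C a * X ^ n) := by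
        rw [e3, derivative_mul, derivative_X, mul_one, map_add, map_mul, Local_evP_X]
      rw [e4, ← e1]
      show evP φ p.1 p.2 (C a * X ^ n) * 1 + p.2 * f1 (0, 1) =
        f1 (0, 1) * p.2 + evP φ p.1 p.2 (C a * X ^ n)
      ring

/-- implicit function theorem (e.g. `HasStrictFDerivAt.map_nhds_eq_of_equiv` for the map
`(x, y) ↦ (x, f(x, y))`) -/
theorem implicit {k : Type u} [Field k] {K : Type v} [NontriviallyNormedField K] [CompleteSpace K]
    (φ : k →+* K) {m : ℕ} (f : (MvPolynomial (Fin m) k)[X]) (x₀ : Fin m → K) (y₀ : K)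
    (h0 : evP φ x₀ y₀ f = 0) (h1 : evP φ x₀ y₀ (derivative f) ≠ 0) {ε : ℝ} (hε : 0 < ε) :
    ∃ δ : ℝ, 0 < δ ∧ ∀ x : Fin m → K, (∀ i, ‖x i - x₀ i‖ < δ) →
      ∃ y : K, ‖y - y₀‖ < ε ∧ evP φ x y f = 0 := by
  obtain ⟨f', hf', hc⟩ := Local_sd φ f (x₀, y₀)
  obtain ⟨c, hcdef⟩ : ∃ c : K, c = evP φ x₀ y₀ (derivative f) := ⟨_, rfl⟩
  have hc' : f' (0, 1) = c := by rw [hcdef]; exact hc
  have hc0 : c ≠ 0 := by rw [hcdef]; exact h1
  have hdec : ∀ (u : Fin m → K) (w : K), f' (u, w) = f' (u, 0) + w * c := by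
    intro u w
    have e : ((u, w) : (Fin m → K) × K) = (u, 0) + w • ((0, 1) : (Fin m → K) × K) := by
      ext <;> simp
    rw [e, map_add, map_smul, hc', smul_eq_mul]
  let F₁ : ((Fin m → K) × K) →L[K] ((Fin m → K) × K) :=
    (ContinuousLinearMap.fst K (Fin m → K) K).prod f'
  let F₂ : ((Fin m → K) × K) →L[K] ((Fin m → K) × K) :=
    (ContinuousLinearMap.fst K (Fin m → K) K).prod
      (c⁻¹ • (ContinuousLinearMap.snd K (Fin m → K) K -
        f'.comp ((ContinuousLinearMap.inl K (Fin m → K) K).comp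
          (ContinuousLinearMap.fst K (Fin m → K) K))))
  have hF₁ : ∀ q : (Fin m → K) × K, F₁ q = (q.1, f' (q.1, 0) + q.2 * c) := by
    rintro ⟨u, w⟩
    show ((u, f' (u, w)) : (Fin m → K) × K) = _
    rw [hdec]
  have hF₂ : ∀ q : (Fin m → K) × K, F₂ q = (q.1, c⁻¹ * (q.2 - f' (q.1, 0))) := by
    rintro ⟨u, w⟩
    rfl
  have hl : Function.LeftInverse F₂ F₁ := by
    rintro ⟨u, w⟩
    rw [hF₂, hF₁]
    ext
    · rfl
    · show c⁻¹ * (f' (u, 0) + w * c - f' (u, 0)) = w
      field_simp
      ring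
  have hr : Function.RightInverse F₂ F₁ := by
    rintro ⟨u, w⟩
    rw [hF₁, hF₂]
    ext
    · rfl
    · show f' (u, 0) + c⁻¹ * (w - f' (u, 0)) * c = w
      field_simp
      ring
  let e : ((Fin m → K) × K) ≃L[K] ((Fin m → K) × K) :=
    ContinuousLinearEquiv.equivOfInverse F₁ F₂ hl hr
  have hΦ : HasStrictFDerivAt (fun p : (Fin m → K) × K => (p.1, evP φ p.1 p.2 f))
      (e : ((Fin m → K) × K) →L[K] ((Fin m → K) × K)) (x₀, y₀) := by
    have h2 : HasStrictFDerivAt (fun p : (Fin m → K) × K => p.1)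
        (ContinuousLinearMap.fst K (Fin m → K) K) (x₀, y₀) :=
      (ContinuousLinearMap.fst K (Fin m → K) K).hasStrictFDerivAt
    have h3 := h2.prodMk hf'
    exact h3
  have hmap := hΦ.map_nhds_eq_of_equiv
  have hU : {p : (Fin m → K) × K | ‖p.2 - y₀‖ < ε} ∈ nhds (x₀, y₀) := by
    refine (isOpen_lt ?_ continuous_const).mem_nhds ?_
    · exact (continuous_snd.sub continuous_const).norm
    · show ‖y₀ - y₀‖ < ε
      rw [sub_self, norm_zero]
      exact hε
  have hV : (fun p : (Fin m → K) × K => (p.1, evP φ p.1 p.2 f)) ''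
      {p : (Fin m → K) × K | ‖p.2 - y₀‖ < ε} ∈
      Filter.map (fun p : (Fin m → K) × K => (p.1, evP φ p.1 p.2 f)) (nhds (x₀, y₀)) :=
    Filter.image_mem_map hU
  rw [hmap] at hV
  have hV' : (fun p : (Fin m → K) × K => (p.1, evP φ p.1 p.2 f)) ''
      {p : (Fin m → K) × K | ‖p.2 - y₀‖ < ε} ∈ nhds ((x₀, 0) : (Fin m → K) × K) := by
    have : ((x₀, evP φ x₀ y₀ f) : (Fin m → K) × K) = (x₀, 0) := by rw [h0]
    rw [← this]
    exact hV
  have hcont : Continuous fun x : Fin m → K => ((x, 0) : (Fin m → K) × K) := by fun_prop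
  have hW := hcont.continuousAt.preimage_mem_nhds (x := x₀) hV'
  obtain ⟨δ, hδ, hsub⟩ := Metric.mem_nhds_iff.1 hW
  refine ⟨δ, hδ, fun x hx => ?_⟩
  have hx' : x ∈ Metric.ball x₀ δ := by
    rw [Metric.mem_ball, dist_pi_lt_iff hδ]
    intro i
    rw [dist_eq_norm]
    exact hx i
  obtain ⟨⟨x', y⟩, hq, hq'⟩ := hsub hx'
  have e1 : x' = x := congrArg Prod.fst hq'
  have e2 : evP φ x' y f = 0 := congrArg Prod.snd hq'
  rw [e1] at e2
  exact ⟨y, hq, e2⟩

/-- a non-zero polynomial does not vanish on a box (`MvPolynomial.funext_set`) -/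
theorem box {k : Type u} [Field k] {K : Type v} [NontriviallyNormedField K] (φ : k →+* K)
    {m : ℕ} (q : MvPolynomial (Fin m) k) (hq : q ≠ 0) (x₀ : Fin m → K) {δ : ℝ} (hδ : 0 < δ) :
    ∃ x : Fin m → K, (∀ i, ‖x i - x₀ i‖ < δ) ∧ MvPolynomial.eval₂ φ x q ≠ 0 := by
  have hφ : Function.Injective φ := φ.injective
  by_contra hcon
  push Not at hcon
  apply hq
  apply MvPolynomial.map_injective φ hφ
  rw [map_zero]
  refine MvPolynomial.funext_set (fun i => Metric.ball (x₀ i) δ)
    (fun i => infinite_of_mem_nhds (x₀ i) (Metric.ball_mem_nhds _ hδ)) fun x hx => ?_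
  rw [MvPolynomial.eval_map, map_zero]
  refine hcon x fun i => ?_
  have := hx i (Set.mem_univ i)
  rw [Metric.mem_ball, dist_eq_norm] at this
  exact this

/-- continuity of polynomial functions -/
theorem cont {k : Type u} [Field k] {K : Type v} [NormedField K] (φ : k →+* K)
    {m : ℕ} (f : (MvPolynomial (Fin m) k)[X]) :
    Continuous (fun p : (Fin m → K) × K => evP φ p.1 p.2 f) := by
  have h1 : ∀ a : MvPolynomial (Fin m) k,
      Continuous (fun x : Fin m → K => MvPolynomial.eval₂ φ x a) := by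
    intro a
    induction a using MvPolynomial.induction_on with
    | C c =>
      simp only [MvPolynomial.eval₂_C]
      exact continuous_const
    | add a b ha hb =>
      simp only [MvPolynomial.eval₂_add]
      exact ha.add hb
    | mul_X a i ha =>
      simp only [MvPolynomial.eval₂_mul, MvPolynomial.eval₂_X]
      exact ha.mul (continuous_apply i)
  induction f using Polynomial.induction_on' with
  | add a b ha hb =>
    simp only [map_add]
    exact ha.add hb
  | monomial n a =>
    simp only [← C_mul_X_pow_eq_monomial, map_mul, map_pow, Local_evP_C, Local_evP_X]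
    exact ((h1 a).comp continuous_fst).mul (continuous_snd.pow n)

theorem cont' {k : Type u} [Field k] {K : Type v} [NormedField K] (φ : k →+* K)
    {b : ℕ} (q : MvPolynomial (Fin b) k) :
    Continuous (fun x : Fin b → K => MvPolynomial.eval₂ φ x q) := by
  induction q using MvPolynomial.induction_on with
  | C c =>
    simp only [MvPolynomial.eval₂_C]
    exact continuous_const
  | add a b ha hb =>
    simp only [MvPolynomial.eval₂_add]
    exact ha.add hb
  | mul_X a i ha =>
    simp only [MvPolynomial.eval₂_mul, MvPolynomial.eval₂_X]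
    exact ha.mul (continuous_apply i)

end WA83
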