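import Pool.Agent.H.MP_83e36b_nt.wa.Alg
import Pool.Agent.H.MP_83e36b_nt.nr.Defs

/-! Parametrisation of the points of a stably rational hypersurface. -/

set_option autoImplicit false

open Polynomial

namespace WA83

open CM83 NR83

universe u v w

theorem Birat_evP_map {k L S : Type*} [CommRing k] [CommRing L] [CommRing S] (φ : k →+* L)
    (ψ : L →+* S) {m : ℕ} (x : Fin m → L) (y : L) (p : (MvPolynomial (Fin m) k)[X]) :
    ψ (evP φ x y p) = evP (ψ.comp φ) (fun i => ψ (x i)) (ψ y) p := by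
  have h : ψ.comp (evP φ x y) = evP (ψ.comp φ) (fun i => ψ (x i)) (ψ y) := by
    unfold evP
    ext <;> simp
  exact RingHom.congr_fun h p

theorem Birat_evP_C {k L : Type*} [CommRing k] [CommRing L] (φ : k →+* L)
    {m : ℕ} (x : Fin m → L) (y : L) (p : MvPolynomial (Fin m) k) :
    evP φ x y (Polynomial.C p) = MvPolynomial.eval₂ φ x p := by
  unfold evP
  simp

theorem Birat_lift {R : Type*} [CommRing R] (D : R) {S : Type*} [Field S] (ψ : R →+* S)
    (hD : ψ D ≠ 0) :
    ∃ ψ' : Localization.Away D →+* S, (∀ r, ψ' (algebraMap R _ r) = ψ r) ∧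
      ψ' (IsLocalization.Away.invSelf D) = (ψ D)⁻¹ := by
  have hu : IsUnit (ψ D) := hD.isUnit
  have h0 : ∀ r, IsLocalization.Away.lift (S := Localization.Away D) D hu
      (algebraMap R _ r) = ψ r := fun r => IsLocalization.Away.lift_eq D hu r
  refine ⟨IsLocalization.Away.lift D hu, h0, ?_⟩
  have h1 := congrArg (IsLocalization.Away.lift (S := Localization.Away D) D hu)
    (IsLocalization.Away.mul_invSelf (S := Localization.Away D) D)
  rw [map_mul, h0, map_one] at h1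
  exact eq_inv_of_mul_eq_one_right h1

/-- `N / D ^ e` is the value of `p` at `(C_j / D, C' / D)` -/
structure BiratNum {R k : Type*} [CommRing R] [CommRing k] (i : k →+* R) {m : ℕ} (D : R)
    (C : Fin m → R) (C' : R) (p : (MvPolynomial (Fin m) k)[X]) (N : R) (e : ℕ) : Prop where
  eq : evP ((algebraMap R (Localization.Away D)).comp i)
    (fun j => algebraMap R (Localization.Away D) (C j) * IsLocalization.Away.invSelf D)
    (algebraMap R (Localization.Away D) C' * IsLocalization.Away.invSelf D) p *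
      algebraMap R (Localization.Away D) D ^ e = algebraMap R (Localization.Away D) N

theorem BiratNum.exists {R k : Type*} [CommRing R] [CommRing k] (i : k →+* R) {m : ℕ} (D : R)
    (C : Fin m → R) (C' : R) (p : (MvPolynomial (Fin m) k)[X]) :
    ∃ (N : R) (e : ℕ), BiratNum i D C C' p N e := by
  obtain ⟨e, N, h⟩ := IsLocalization.Away.surj D (evP ((algebraMap R (Localization.Away D)).comp i)
    (fun j => algebraMap R (Localization.Away D) (C j) * IsLocalization.Away.invSelf D)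
    (algebraMap R (Localization.Away D) C' * IsLocalization.Away.invSelf D) p)
  exact ⟨N, e, ⟨h⟩⟩

theorem BiratNum.val {R k : Type*} [CommRing R] [CommRing k] {i : k →+* R} {m : ℕ} {D : R}
    {C : Fin m → R} {C' : R} {p : (MvPolynomial (Fin m) k)[X]} {N : R} {e : ℕ}
    (h : BiratNum i D C C' p N e) {S : Type*} [Field S] (ψ : R →+* S) (hD : ψ D ≠ 0) :
    evP (ψ.comp i) (fun j => ψ (C j) / ψ D) (ψ C' / ψ D) p * ψ D ^ e = ψ N := by
  obtain ⟨ψ', h1, h2⟩ := Birat_lift D ψ hD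
  have h3 := congrArg ψ' h.eq
  rw [map_mul, map_pow, h1, h1, Birat_evP_map] at h3
  have h4 : ψ'.comp ((algebraMap R (Localization.Away D)).comp i) = ψ.comp i := by
    ext r
    simp only [RingHom.comp_apply, h1]
  rw [h4] at h3
  simp only [map_mul, h1, h2, ← div_eq_mul_inv] at h3
  exact h3

theorem Birat_denom {R K ι : Type*} [CommRing R] [Field K] [Fintype ι] (Φ : R →+* K) (z : ι → K)
    (h : ∀ i, ∃ P Q : R, Φ Q ≠ 0 ∧ z i * Φ Q = Φ P) :
    ∃ (D : R) (C : ι → R), Φ D ≠ 0 ∧ ∀ i, z i * Φ D = Φ (C i) := by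
  classical
  choose P Q hQ hP using h
  refine ⟨∏ i, Q i, fun i => P i * ∏ j ∈ Finset.univ.erase i, Q j, ?_, fun i => ?_⟩
  · rw [map_prod]
    exact Finset.prod_ne_zero_iff.2 fun i _ => hQ i
  · rw [← Finset.mul_prod_erase Finset.univ Q (Finset.mem_univ i), map_mul, map_mul, ← mul_assoc,
      hP]

theorem Birat_quot {R : Type*} [CommRing R] [IsDomain R] (z : FractionRing R) :
    ∃ P Q : R, algebraMap R (FractionRing R) Q ≠ 0 ∧
      z * algebraMap R (FractionRing R) Q = algebraMap R (FractionRing R) P := by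
  obtain ⟨n, d, hd, rfl⟩ := IsFractionRing.div_surjective (A := R) z
  have hd0 : algebraMap R (FractionRing R) d ≠ 0 := by
    intro h
    exact nonZeroDivisors.ne_zero hd
      ((map_eq_zero_iff _ (IsFractionRing.injective R (FractionRing R))).1 h)
  exact ⟨n, d, hd0, div_mul_cancel₀ _ hd0⟩

theorem Birat_quotF {k : Type u} [Field k] {m : ℕ}
    {f : (MvPolynomial (Fin m) k)[X]} {F : Type w} [Field F] [Algebra k F] {ξ : Fin m → F}
    {η : F} (h : Generic f F ξ η) {a : ℕ} (n : MvPolynomial (Fin a) F) :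
    ∃ (P : MvPolynomial (Fin a) (MvPolynomial (Fin m) k)[X]) (q : (MvPolynomial (Fin m) k)[X]),
      evP (algebraMap k F) ξ η q ≠ 0 ∧
      n * MvPolynomial.C (evP (algebraMap k F) ξ η q) =
        MvPolynomial.map (evP (algebraMap k F) ξ η) P := by
  induction n using MvPolynomial.induction_on with
  | C z =>
    obtain ⟨p, q, hq, hz⟩ := h.exists_quot z
    exact ⟨MvPolynomial.C p, q, hq, by rw [← map_mul, hz, MvPolynomial.map_C]⟩
  | add n₁ n₂ h₁ h₂ =>
    obtain ⟨P₁, q₁, hq₁, e₁⟩ := h₁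
    obtain ⟨P₂, q₂, hq₂, e₂⟩ := h₂
    refine ⟨P₁ * MvPolynomial.C q₂ + P₂ * MvPolynomial.C q₁, q₁ * q₂, ?_, ?_⟩
    · rw [map_mul]
      exact mul_ne_zero hq₁ hq₂
    · simp only [map_add, map_mul, MvPolynomial.map_C, ← e₁, ← e₂]
      ring
  | mul_X n i h₁ =>
    obtain ⟨P₁, q₁, hq₁, e₁⟩ := h₁
    refine ⟨P₁ * MvPolynomial.X i, q₁, hq₁, ?_⟩
    rw [map_mul, ← e₁, MvPolynomial.map_X]
    ring

theorem Birat_quotM {k : Type u} [Field k] {m : ℕ}
    {f : (MvPolynomial (Fin m) k)[X]} {F : Type w} [Field F] [Algebra k F] {ξ : Fin m → F}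
    {η : F} (h : Generic f F ξ η) {a : ℕ} (z : RF F a) :
    ∃ P Q : MvPolynomial (Fin a) (MvPolynomial (Fin m) k)[X],
      ((algebraMap (MvPolynomial (Fin a) F) (RF F a)).comp
        (MvPolynomial.map (evP (algebraMap k F) ξ η))) Q ≠ 0 ∧
      z * ((algebraMap (MvPolynomial (Fin a) F) (RF F a)).comp
        (MvPolynomial.map (evP (algebraMap k F) ξ η))) Q =
      ((algebraMap (MvPolynomial (Fin a) F) (RF F a)).comp
        (MvPolynomial.map (evP (algebraMap k F) ξ η))) P := by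
  obtain ⟨n, d, hd, hz⟩ := Birat_quot z
  obtain ⟨P₁, q₁, hq₁, e₁⟩ := Birat_quotF h n
  obtain ⟨P₂, q₂, hq₂, e₂⟩ := Birat_quotF h d
  have hinj := IsFractionRing.injective (MvPolynomial (Fin a) F) (RF F a)
  refine ⟨P₁ * MvPolynomial.C q₂, P₂ * MvPolynomial.C q₁, ?_, ?_⟩
  · rw [RingHom.comp_apply, map_mul, ← e₂, MvPolynomial.map_C, map_mul, map_mul]
    refine mul_ne_zero (mul_ne_zero hd ?_) ?_
    · rw [Ne, map_eq_zero_iff _ hinj, MvPolynomial.C_eq_zero]
      exact hq₂
    · rw [Ne, map_eq_zero_iff _ hinj, MvPolynomial.C_eq_zero]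
      exact hq₁
  · simp only [RingHom.comp_apply, map_mul, MvPolynomial.map_C, ← e₁, ← e₂]
    rw [← hz]
    ring

theorem Birat_vanish {k : Type u} [Field k] [CharZero k] {m : ℕ}
    {f : (MvPolynomial (Fin m) k)[X]} {F : Type w} [Field F] [Algebra k F] {ξ : Fin m → F}
    {η : F} (h : Generic f F ξ η) {a : ℕ}
    (E : MvPolynomial (Fin a) (MvPolynomial (Fin m) k)[X])
    (hE : MvPolynomial.map (evP (algebraMap k F) ξ η) E = 0) {L : Type v} [Field L] (φ : k →+* L)
    (x : Fin m → L) (y : L) (σ : Fin a → L) (hf : evP φ x y f = 0) :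
    MvPolynomial.eval₂ (evP φ x y) σ E = 0 := by
  have h1 : MvPolynomial.map (evP φ x y) E = 0 := by
    ext d
    rw [MvPolynomial.coeff_map, MvPolynomial.coeff_zero]
    have h2 : evP (algebraMap k F) ξ η (MvPolynomial.coeff d E) = 0 := by
      rw [← MvPolynomial.coeff_map, hE, MvPolynomial.coeff_zero]
    obtain ⟨c, hc⟩ := h.dvd _ h2
    rw [hc, map_mul, hf, zero_mul]
  rw [← MvPolynomial.eval_map, h1, map_zero]

theorem Birat_der {k : Type u} [Field k] [CharZero k] {m : ℕ}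
    {f : (MvPolynomial (Fin m) k)[X]} {F : Type w} [Field F] [Algebra k F] {ξ : Fin m → F}
    {η : F} (h : Generic f F ξ η) : evP (algebraMap k F) ξ η (derivative f) ≠ 0 := by
  intro h1
  have h2 := h.dvd _ h1
  have h3 := Polynomial.natDegree_le_of_dvd h2 h.deg
  have h4 : f.natDegree ≠ 0 := by
    intro h5
    apply h.deg
    rw [Polynomial.eq_C_of_natDegree_eq_zero h5, Polynomial.derivative_C]
  have h5 := Polynomial.natDegree_derivative_lt h4
  omega

/-- the core of `param`, with one field `K` instead of the two isomorphic fields -/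
theorem Birat_core {k : Type u} [Field k] [CharZero k] {m : ℕ}
    {f g : (MvPolynomial (Fin m) k)[X]} {F : Type w} [Field F] [Algebra k F] {ξ : Fin m → F}
    {η : F} (h : Generic f F ξ η) (hg : evP (algebraMap k F) ξ η g ≠ 0) {a b : ℕ}
    {K : Type*} [Field K] (κ : MvPolynomial (Fin b) k →+* K) (hκi : Function.Injective κ)
    (Φ : MvPolynomial (Fin a) (MvPolynomial (Fin m) k)[X] →+* K)
    (hΦ0 : ∀ E, Φ E = 0 ↔ MvPolynomial.map (evP (algebraMap k F) ξ η) E = 0)
    (hΦk : ∀ r : k, Φ (MvPolynomial.C (Polynomial.C (MvPolynomial.C r))) = κ (MvPolynomial.C r))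
    (hκq : ∀ z : K, ∃ P Q, κ Q ≠ 0 ∧ z * κ Q = κ P)
    (hΦq : ∀ z : K, ∃ P Q, Φ Q ≠ 0 ∧ z * Φ Q = Φ P) :
    ∃ (D C' : MvPolynomial (Fin b) k) (C : Fin m → MvPolynomial (Fin b) k)
      (B : MvPolynomial (Fin a) (MvPolynomial (Fin m) k)[X]),
      MvPolynomial.map (evP (algebraMap k F) ξ η) B ≠ 0 ∧
      (∀ (L : Type v) [Field L] (φ : k →+* L) (τ : Fin b → L), MvPolynomial.eval₂ φ τ D ≠ 0 →
        ((fun j => MvPolynomial.eval₂ φ τ (C j) / MvPolynomial.eval₂ φ τ D),
          MvPolynomial.eval₂ φ τ C' / MvPolynomial.eval₂ φ τ D) ∈ Pts f g φ) ∧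
      (∀ (L : Type v) [Field L] (φ : k →+* L) (x : Fin m → L) (y : L) (σ : Fin a → L),
        evP φ x y f = 0 → MvPolynomial.eval₂ (evP φ x y) σ B ≠ 0 →
        ∃ τ : Fin b → L, MvPolynomial.eval₂ φ τ D ≠ 0 ∧
          (∀ j, x j = MvPolynomial.eval₂ φ τ (C j) / MvPolynomial.eval₂ φ τ D) ∧
          y = MvPolynomial.eval₂ φ τ C' / MvPolynomial.eval₂ φ τ D) := by
  classical
  -- the coordinate functions
  obtain ⟨cd, hcd⟩ : ∃ cd : Option (Fin m) → MvPolynomial (Fin a) (MvPolynomial (Fin m) k)[X],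
    cd = fun i => MvPolynomial.C (i.elim Polynomial.X
      (fun j => Polynomial.C (MvPolynomial.X j))) := ⟨_, rfl⟩
  have hΦC0 : ∀ p, Φ (MvPolynomial.C p) = 0 ↔ evP (algebraMap k F) ξ η p = 0 := by
    intro p
    rw [hΦ0, MvPolynomial.map_C, MvPolynomial.C_eq_zero]
  have hΦp : ∀ p, Φ (MvPolynomial.C p) =
      evP (κ.comp MvPolynomial.C) (fun j => Φ (cd (some j))) (Φ (cd none)) p := by
    intro p
    have h1 : Φ.comp MvPolynomial.C =
        evP (κ.comp MvPolynomial.C) (fun j => Φ (cd (some j))) (Φ (cd none)) := by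
      rw [hcd]
      unfold evP
      ext x
      · simp [hΦk]
      · simp
      · simp
    exact RingHom.congr_fun h1 p
  -- the denominators of the images of `ξ`, `η`
  obtain ⟨D₀, C₀, hD₀, hC₀⟩ := Birat_denom κ (fun i => Φ (cd i)) (fun i => hκq _)
  have hx₀ : ∀ i, κ (C₀ i) / κ D₀ = Φ (cd i) := fun i => by
    rw [← hC₀ i, mul_div_cancel_right₀ _ hD₀]
  have hnum : ∀ p N e, BiratNum (MvPolynomial.C : k →+* MvPolynomial (Fin b) k) D₀
      (fun j => C₀ (some j)) (C₀ none) p N e → Φ (MvPolynomial.C p) * κ D₀ ^ e = κ N := by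
    intro p N e hN
    have h1 := hN.val κ hD₀
    simp only [hx₀] at h1
    rw [hΦp]
    exact h1
  obtain ⟨Nf, ef, hNf⟩ := BiratNum.exists (MvPolynomial.C : k →+* MvPolynomial (Fin b) k) D₀
      (fun j => C₀ (some j)) (C₀ none) f
  obtain ⟨Nd, ed, hNd⟩ := BiratNum.exists (MvPolynomial.C : k →+* MvPolynomial (Fin b) k) D₀
      (fun j => C₀ (some j)) (C₀ none) (derivative f)
  obtain ⟨Ng, eg, hNg⟩ := BiratNum.exists (MvPolynomial.C : k →+* MvPolynomial (Fin b) k) D₀
      (fun j => C₀ (some j)) (C₀ none) g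
  have hNf0 : Nf = 0 := by
    have h1 := hnum _ _ _ hNf
    rw [(hΦC0 f).2 h.zero, zero_mul] at h1
    exact (map_eq_zero_iff κ hκi).1 h1.symm
  have hNd0 : Nd ≠ 0 := by
    intro h0
    have h1 := hnum _ _ _ hNd
    rw [h0, map_zero] at h1
    exact mul_ne_zero (fun h2 => Birat_der h ((hΦC0 _).1 h2)) (pow_ne_zero _ hD₀) h1
  have hNg0 : Ng ≠ 0 := by
    intro h0
    have h1 := hnum _ _ _ hNg
    rw [h0, map_zero] at h1
    exact mul_ne_zero (fun h2 => hg ((hΦC0 _).1 h2)) (pow_ne_zero _ hD₀) h1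
  have hD₀0 : D₀ ≠ 0 := by
    intro h0
    rw [h0, map_zero] at hD₀
    exact hD₀ rfl
  obtain ⟨D, hD⟩ : ∃ D, D = D₀ * (Nd * Ng) := ⟨_, rfl⟩
  have hκD : κ D ≠ 0 := by
    rw [hD, map_ne_zero_iff κ hκi]
    exact mul_ne_zero hD₀0 (mul_ne_zero hNd0 hNg0)
  have hrel : ∀ i : Option (Fin m), Φ (cd i) * κ D = κ (C₀ i * (Nd * Ng)) := by
    intro i
    rw [hD, map_mul, ← mul_assoc, hC₀, ← map_mul]
  -- the elements of `K` which correspond to the variables
  obtain ⟨A₀, A, hA₀, hA⟩ := Birat_denom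
    (R := MvPolynomial (Fin a) (MvPolynomial (Fin m) k)[X]) (K := K) Φ
    (fun i : Fin b => κ (MvPolynomial.X i)) (fun i => hΦq _)
  obtain ⟨i', hi'⟩ : ∃ i' : k →+* MvPolynomial (Fin a) (MvPolynomial (Fin m) k)[X],
    i' = MvPolynomial.C.comp (Polynomial.C.comp MvPolynomial.C) := ⟨_, rfl⟩
  have hΦi : Φ.comp i' = κ.comp MvPolynomial.C := by
    ext r
    rw [hi']
    exact hΦk r
  have hκe : ∀ p, κ p = MvPolynomial.eval₂ (κ.comp MvPolynomial.C)
      (fun i => κ (MvPolynomial.X i)) p := by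
    intro p
    have h1 : κ = MvPolynomial.eval₂Hom (κ.comp MvPolynomial.C)
        (fun i => κ (MvPolynomial.X i)) := by
      apply MvPolynomial.ringHom_ext
      · intro r
        rw [MvPolynomial.eval₂Hom_C]
        rfl
      · intro i
        rw [MvPolynomial.eval₂Hom_X']
    exact RingHom.congr_fun h1 p
  have hA' : ∀ i, Φ (A i) / Φ A₀ = κ (MvPolynomial.X i) := fun i => by
    rw [← hA i, mul_div_cancel_right₀ _ hA₀]
  have hnum2 : ∀ p N e, BiratNum i' A₀ A 0 (Polynomial.C p) N e →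
      κ p * Φ A₀ ^ e = Φ N := by
    intro p N e hN
    have h1 := hN.val Φ hA₀
    simp only [hA', hΦi] at h1
    rw [Birat_evP_C] at h1
    rw [hκe]
    exact h1
  obtain ⟨ND, eD, hND⟩ := BiratNum.exists i' A₀ A 0 (Polynomial.C D)
  have hex : ∀ i : Option (Fin m), ∃ (N : MvPolynomial (Fin a) (MvPolynomial (Fin m) k)[X])
      (e : ℕ), BiratNum i' A₀ A 0 (Polynomial.C (C₀ i * (Nd * Ng))) N e :=
    fun i => BiratNum.exists i' A₀ A 0 _
  choose NC eC hNC using hex
  have hΦND : Φ ND ≠ 0 := by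
    rw [← hnum2 _ _ _ hND]
    exact mul_ne_zero hκD (pow_ne_zero _ hA₀)
  have hE : ∀ i : Option (Fin m), MvPolynomial.map (evP (algebraMap k F) ξ η)
      (cd i * ND * A₀ ^ eC i - NC i * A₀ ^ eD) = 0 := by
    intro i
    rw [← hΦ0, map_sub, map_mul, map_mul, map_mul, map_pow, map_pow, ← hnum2 _ _ _ hND,
      ← hnum2 _ _ _ (hNC i), ← hrel i]
    ring
  refine ⟨D, C₀ none * (Nd * Ng), fun j => C₀ (some j) * (Nd * Ng), A₀ * ND, ?_, ?_, ?_⟩
  · intro h0
    have h1 := (hΦ0 _).2 h0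
    rw [map_mul] at h1
    exact mul_ne_zero hA₀ hΦND h1
  · intro L _ φ τ hτ
    obtain ⟨ψ, hψ⟩ : ∃ ψ : MvPolynomial (Fin b) k →+* L, ψ = MvPolynomial.eval₂Hom φ τ :=
      ⟨_, rfl⟩
    have hψe : ∀ p, MvPolynomial.eval₂ φ τ p = ψ p := fun p => by
      rw [hψ]
      rfl
    have hψC : ψ.comp MvPolynomial.C = φ := by
      ext r
      rw [hψ, RingHom.comp_apply, MvPolynomial.eval₂Hom_C]
    simp only [hψe] at hτ ⊢
    rw [hD, map_mul, mul_ne_zero_iff] at hτ
    obtain ⟨hτ0, hτ1⟩ := hτ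
    have hτ2 := hτ1
    rw [map_mul, mul_ne_zero_iff] at hτ2
    have hq : ∀ c, ψ (c * (Nd * Ng)) / ψ D = ψ c / ψ D₀ := by
      intro c
      rw [hD, map_mul, map_mul ψ D₀, mul_div_mul_right _ _ hτ1]
    simp only [hq]
    have hv : ∀ p N e, BiratNum (MvPolynomial.C : k →+* MvPolynomial (Fin b) k) D₀
        (fun j => C₀ (some j)) (C₀ none) p N e →
        evP φ (fun j => ψ (C₀ (some j)) / ψ D₀) (ψ (C₀ none) / ψ D₀) p * ψ D₀ ^ e = ψ N := by
      intro p N e hN
      have h1 := hN.val ψ hτ0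
      rw [hψC] at h1
      exact h1
    refine ⟨?_, ?_, ?_⟩
    · have h1 := hv _ _ _ hNf
      rw [hNf0, map_zero] at h1
      exact (mul_eq_zero.1 h1).resolve_right (pow_ne_zero _ hτ0)
    · intro h0
      have h1 := hv _ _ _ hNd
      rw [h0, zero_mul] at h1
      exact hτ2.1 h1.symm
    · intro h0
      have h1 := hv _ _ _ hNg
      rw [h0, zero_mul] at h1
      exact hτ2.2 h1.symm
  · intro L _ φ x y σ hf hB
    obtain ⟨ψ, hψ⟩ : ∃ ψ : MvPolynomial (Fin a) (MvPolynomial (Fin m) k)[X] →+* L,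
      ψ = MvPolynomial.eval₂Hom (evP φ x y) σ := ⟨_, rfl⟩
    have hψe : ∀ p, MvPolynomial.eval₂ (evP φ x y) σ p = ψ p := fun p => by
      rw [hψ]
      rfl
    have hψi : ψ.comp i' = φ := by
      ext r
      rw [hψ, hi']
      simp only [RingHom.comp_apply, MvPolynomial.eval₂Hom_C]
      rw [Birat_evP_C, MvPolynomial.eval₂_C]
    rw [hψe, map_mul, mul_ne_zero_iff] at hB
    have hv : ∀ p N e, BiratNum i' A₀ A 0 (Polynomial.C p) N e →
        MvPolynomial.eval₂ φ (fun i => ψ (A i) / ψ A₀) p * ψ A₀ ^ e = ψ N := by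
      intro p N e hN
      have h1 := hN.val ψ hB.1
      rw [hψi, Birat_evP_C] at h1
      exact h1
    have hDτ : MvPolynomial.eval₂ φ (fun i => ψ (A i) / ψ A₀) D ≠ 0 := by
      intro h0
      have h1 := hv _ _ _ hND
      rw [h0, zero_mul] at h1
      exact hB.2 h1.symm
    have hfin : ∀ i : Option (Fin m), ψ (cd i) = MvPolynomial.eval₂ φ (fun i => ψ (A i) / ψ A₀)
        (C₀ i * (Nd * Ng)) / MvPolynomial.eval₂ φ (fun i => ψ (A i) / ψ A₀) D := by
      intro i
      have h1 := Birat_vanish h _ (hE i) φ x y σ hf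
      rw [hψe, map_sub, map_mul, map_mul, map_mul, map_pow, map_pow, ← hv _ _ _ hND,
        ← hv _ _ _ (hNC i)] at h1
      rw [eq_div_iff hDτ]
      have h2 : ψ A₀ ^ eD * ψ A₀ ^ eC i ≠ 0 := mul_ne_zero (pow_ne_zero _ hB.1)
        (pow_ne_zero _ hB.1)
      apply mul_right_cancel₀ h2
      linear_combination h1
    refine ⟨fun i => ψ (A i) / ψ A₀, hDτ, fun j => ?_, ?_⟩
    · rw [← hfin (some j), hcd, hψ]
      simp only [Option.elim_some, MvPolynomial.eval₂Hom_C]
      rw [Birat_evP_C, MvPolynomial.eval₂_X]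
    · rw [← hfin none, hcd, hψ]
      simp only [Option.elim_none, MvPolynomial.eval₂Hom_C]
      unfold evP
      simp

/-- If `F(s_1, ..., s_a) ≅ k(t_1, ..., t_b)` then there are polynomials `D`, `C_j`, `C'` in
`t_1, ..., t_b` and `B` in `s_1, ..., s_a` with coefficients in `k[x][y]` such that, over every
field `L` containing `k`:
(i) the points `(C_j(τ)/D(τ), C'(τ)/D(τ))`, `D(τ) ≠ 0`, are points of `X`,
(ii) every point `(x, y)` of `f = 0` for which `B(x, y, σ) ≠ 0` for some `σ` is of this form.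
Proof: `D` is a common denominator of the images of `ξ_j, η` in `k(t)`, multiplied by the
numerators of the images of `∂f/∂y(ξ,η)` and `g(ξ,η)`.  The elements of `F(s)` corresponding to
the `t_i` are `A_i(ξ,η,s)/A_0(ξ,η,s)` with polynomials `A_i`; `B` is the product of `A_0` and of
`A_0^M D(A/A_0)` for a large `M`.  The identities `ξ_j D(t) = C_j(t)` in `F(s)`, multiplied by a
power of `A_0`, are polynomial identities in `s` with coefficients in `k[ξ, η]`; by `Generic.dvd`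
they hold at all `(x, y)` with `f(x, y) = 0`. -/
theorem param {k : Type u} [Field k] [CharZero k] {m : ℕ}
    {f g : (MvPolynomial (Fin m) k)[X]} {F : Type w} [Field F] [Algebra k F] {ξ : Fin m → F}
    {η : F} (h : Generic f F ξ η) (hg : evP (algebraMap k F) ξ η g ≠ 0) {a b : ℕ}
    (Ψ : RF F a ≃ₐ[k] RF k b) :
    ∃ (D C' : MvPolynomial (Fin b) k) (C : Fin m → MvPolynomial (Fin b) k)
      (B : MvPolynomial (Fin a) (MvPolynomial (Fin m) k)[X]),
      MvPolynomial.map (evP (algebraMap k F) ξ η) B ≠ 0 ∧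
      (∀ (L : Type v) [Field L] (φ : k →+* L) (τ : Fin b → L), MvPolynomial.eval₂ φ τ D ≠ 0 →
        ((fun j => MvPolynomial.eval₂ φ τ (C j) / MvPolynomial.eval₂ φ τ D),
          MvPolynomial.eval₂ φ τ C' / MvPolynomial.eval₂ φ τ D) ∈ Pts f g φ) ∧
      (∀ (L : Type v) [Field L] (φ : k →+* L) (x : Fin m → L) (y : L) (σ : Fin a → L),
        evP φ x y f = 0 → MvPolynomial.eval₂ (evP φ x y) σ B ≠ 0 →
        ∃ τ : Fin b → L, MvPolynomial.eval₂ φ τ D ≠ 0 ∧
          (∀ j, x j = MvPolynomial.eval₂ φ τ (C j) / MvPolynomial.eval₂ φ τ D) ∧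
          y = MvPolynomial.eval₂ φ τ C' / MvPolynomial.eval₂ φ τ D) := by
  have hιi := IsFractionRing.injective (MvPolynomial (Fin a) F) (RF F a)
  have hκi := IsFractionRing.injective (MvPolynomial (Fin b) k) (RF k b)
  refine Birat_core h hg (K := RF k b) (algebraMap (MvPolynomial (Fin b) k) (RF k b)) hκi
    ((Ψ : RF F a →+* RF k b).comp ((algebraMap (MvPolynomial (Fin a) F) (RF F a)).comp
      (MvPolynomial.map (evP (algebraMap k F) ξ η)))) ?_ ?_ ?_ ?_
  · intro E
    constructor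
    · intro h1
      have h2 : Ψ (algebraMap (MvPolynomial (Fin a) F) (RF F a)
        (MvPolynomial.map (evP (algebraMap k F) ξ η) E)) = 0 := h1
      exact (map_eq_zero_iff _ hιi).1 ((map_eq_zero_iff Ψ Ψ.injective).1 h2)
    · intro h1
      rw [RingHom.comp_apply, RingHom.comp_apply, h1, map_zero, map_zero]
  · intro r
    have h1 : MvPolynomial.map (evP (algebraMap k F) ξ η)
        (MvPolynomial.C (Polynomial.C (MvPolynomial.C r)) :
          MvPolynomial (Fin a) (MvPolynomial (Fin m) k)[X]) =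
        algebraMap k (MvPolynomial (Fin a) F) r := by
      rw [MvPolynomial.map_C, Birat_evP_C, MvPolynomial.eval₂_C]
      rfl
    have h2 : algebraMap (MvPolynomial (Fin b) k) (RF k b) (MvPolynomial.C r) =
        algebraMap k (RF k b) r := by
      rw [IsScalarTower.algebraMap_apply k (MvPolynomial (Fin b) k) (RF k b)]
      rfl
    rw [RingHom.comp_apply, RingHom.comp_apply, h1, h2,
      ← IsScalarTower.algebraMap_apply k (MvPolynomial (Fin a) F) (RF F a)]
    exact Ψ.commutes r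
  · intro z
    exact Birat_quot z
  · intro z
    obtain ⟨P, Q, hQ, hz⟩ := Birat_quotM h (Ψ.symm z)
    refine ⟨P, Q, ?_, ?_⟩
    · exact (map_ne_zero_iff Ψ Ψ.injective).2 hQ
    · have h1 := congrArg Ψ hz
      rw [map_mul, AlgEquiv.apply_symm_apply] at h1
      exact h1

end WA83
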