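import Pool.Agent.H.MP_83e36b_nt.wa.Defs

/-! Algebra of the function field of a hypersurface. -/

set_option autoImplicit false

open Polynomial

namespace WA83

universe u w

section alg_aux

variable {k : Type u} [Field k] {m : ℕ} {F : Type w} [Field F] [Algebra k F]

private theorem Alg_inj {ξ : Fin m → F} (h : AlgebraicIndependent k ξ) :
    Function.Injective (MvPolynomial.eval₂Hom (algebraMap k F) ξ) := h

private theorem Alg_natDegree {f : (MvPolynomial (Fin m) k)[X]} {ξ : Fin m → F} {η : F}
    (h : Generic f F ξ η) : f.natDegree ≠ 0 := by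
  intro h0
  apply h.deg
  rw [Polynomial.eq_C_of_natDegree_eq_zero h0, derivative_C]

/-- the homomorphism from the field of fractions -/
private noncomputable def AlgPsi {ξ : Fin m → F} (h : AlgebraicIndependent k ξ) :
    FractionRing (MvPolynomial (Fin m) k) →+* F :=
  IsFractionRing.lift (Alg_inj h)

private theorem Alg_ev {ξ : Fin m → F} (h : AlgebraicIndependent k ξ) (η : F)
    (p : (MvPolynomial (Fin m) k)[X]) :
    evP (algebraMap k F) ξ η p = Polynomial.eval₂RingHom (AlgPsi h) η
      (p.map (algebraMap _ (FractionRing (MvPolynomial (Fin m) k)))) := by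
  unfold evP
  rw [Polynomial.coe_eval₂RingHom, Polynomial.coe_eval₂RingHom, Polynomial.eval₂_map]
  congr 1
  apply RingHom.ext
  intro x
  rw [RingHom.comp_apply]
  unfold AlgPsi
  rw [IsFractionRing.lift_algebraMap]

private theorem Alg_irr {f : (MvPolynomial (Fin m) k)[X]} {ξ : Fin m → F} {η : F}
    (h : Generic f F ξ η) :
    Irreducible (f.map (algebraMap _ (FractionRing (MvPolynomial (Fin m) k)))) :=
  (Polynomial.IsPrimitive.irreducible_iff_irreducible_map_fraction_map
    (h.irr.isPrimitive (Alg_natDegree h))).mp h.irr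

private theorem Alg_inj_map : Function.Injective
    (Polynomial.map (algebraMap (MvPolynomial (Fin m) k) (FractionRing (MvPolynomial (Fin m) k)))) :=
  Polynomial.map_injective _ (IsFractionRing.injective _ _)

/-- common denominators -/
private theorem Alg_den (P : (FractionRing (MvPolynomial (Fin m) k))[X]) :
    ∃ (b : MvPolynomial (Fin m) k) (P' : (MvPolynomial (Fin m) k)[X]), b ≠ 0 ∧
      P'.map (algebraMap _ (FractionRing (MvPolynomial (Fin m) k))) =
        C (algebraMap _ (FractionRing (MvPolynomial (Fin m) k)) b) * P := by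
  obtain ⟨b, hb0, hb⟩ := IsLocalization.integerNormalization_spec
    (nonZeroDivisors (MvPolynomial (Fin m) k)) P
  refine ⟨b, IsLocalization.integerNormalization (nonZeroDivisors (MvPolynomial (Fin m) k)) P,
    nonZeroDivisors.ne_zero hb0, ?_⟩
  rw [hb, ← algebraMap_smul (FractionRing (MvPolynomial (Fin m) k)) b P,
    Polynomial.smul_eq_C_mul]

end alg_aux

/-- the polynomials which vanish at the generic point are the multiples of `f` (Gauss's lemma:
`Polynomial.IsPrimitive...`/`IsIntegrallyClosed`, `minpoly` over `k(x)`; `MvPolynomial (Fin m) k` is a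
UFD) -/
theorem Generic.dvd {k : Type u} [Field k] [CharZero k] {m : ℕ}
    {f : (MvPolynomial (Fin m) k)[X]} {F : Type w} [Field F] [Algebra k F] {ξ : Fin m → F} {η : F}
    (h : Generic f F ξ η) (p : (MvPolynomial (Fin m) k)[X])
    (hp : evP (algebraMap k F) ξ η p = 0) : f ∣ p := by
  have hf0 := h.zero
  rw [Alg_ev h.ind] at hp hf0
  have hd : f.map (algebraMap _ (FractionRing (MvPolynomial (Fin m) k))) ∣
      p.map (algebraMap _ (FractionRing (MvPolynomial (Fin m) k))) := by
    by_contra hnd
    obtain ⟨a, b, hab⟩ := (Alg_irr h).coprime_iff_not_dvd.mpr hnd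
    have h1 := congrArg (Polynomial.eval₂RingHom (AlgPsi h.ind) η) hab
    rw [map_add, map_mul, map_mul, hp, hf0, map_one, mul_zero, mul_zero, add_zero] at h1
    exact zero_ne_one h1
  obtain ⟨Q, hQ⟩ := hd
  obtain ⟨b, Q', hb, hQ'⟩ := Alg_den Q
  have h1 : C b * p = f * Q' := by
    apply Alg_inj_map
    rw [Polynomial.map_mul, Polynomial.map_mul, Polynomial.map_C, hQ', hQ]
    ring
  have h2 : f ∣ C b * p := ⟨Q', h1⟩
  rcases h.irr.prime.dvd_or_dvd h2 with h3 | h3
  · exfalso
    have h4 := Polynomial.natDegree_le_of_dvd h3 (by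
      rw [Ne, Polynomial.C_eq_zero]
      exact hb)
    rw [Polynomial.natDegree_C] at h4
    exact Alg_natDegree h (Nat.le_zero.mp h4)
  · exact h3

/-- Bezout: a polynomial which does not vanish at the generic point divides, modulo `f`, a
non-zero polynomial in `x` -/
theorem Generic.norm {k : Type u} [Field k] [CharZero k] {m : ℕ}
    {f : (MvPolynomial (Fin m) k)[X]} {F : Type w} [Field F] [Algebra k F] {ξ : Fin m → F} {η : F}
    (h : Generic f F ξ η) (p : (MvPolynomial (Fin m) k)[X])
    (hp : evP (algebraMap k F) ξ η p ≠ 0) :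
    ∃ (q : MvPolynomial (Fin m) k) (e e' : (MvPolynomial (Fin m) k)[X]), q ≠ 0 ∧
      C q = p * e + f * e' := by
  have hf0 := h.zero
  rw [Alg_ev h.ind] at hp hf0
  have hnd : ¬ f.map (algebraMap _ (FractionRing (MvPolynomial (Fin m) k))) ∣
      p.map (algebraMap _ (FractionRing (MvPolynomial (Fin m) k))) := by
    rintro ⟨Q, hQ⟩
    apply hp
    rw [hQ, map_mul, hf0, zero_mul]
  obtain ⟨a, b, hab⟩ := (Alg_irr h).coprime_iff_not_dvd.mpr hnd
  obtain ⟨r, a', hr, ha'⟩ := Alg_den a
  obtain ⟨s, b', hs, hb'⟩ := Alg_den b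
  refine ⟨r * s, C r * b', C s * a', mul_ne_zero hr hs, ?_⟩
  apply Alg_inj_map
  rw [Polynomial.map_add, Polynomial.map_mul, Polynomial.map_mul, Polynomial.map_mul,
    Polynomial.map_mul, Polynomial.map_C, Polynomial.map_C, Polynomial.map_C, ha', hb', map_mul,
    C_mul]
  linear_combination (-(C (algebraMap _ (FractionRing (MvPolynomial (Fin m) k)) r) *
    C (algebraMap _ (FractionRing (MvPolynomial (Fin m) k)) s))) * hab

/-- every element of `F` is a quotient of polynomials at the generic point -/
theorem Generic.exists_quot {k : Type u} [Field k] {m : ℕ}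
    {f : (MvPolynomial (Fin m) k)[X]} {F : Type w} [Field F] [Algebra k F] {ξ : Fin m → F} {η : F}
    (h : Generic f F ξ η) (z : F) :
    ∃ p q : (MvPolynomial (Fin m) k)[X], evP (algebraMap k F) ξ η q ≠ 0 ∧
      z * evP (algebraMap k F) ξ η q = evP (algebraMap k F) ξ η p := by
  have hz : z ∈ IntermediateField.adjoin k (insert η (Set.range ξ)) := by
    rw [h.top]
    trivial
  induction hz using IntermediateField.adjoin_induction with
  | mem x hx =>
    rcases hx with hx | ⟨i, hx⟩
    · refine ⟨X, 1, ?_, ?_⟩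
      · rw [map_one]
        exact one_ne_zero
      · rw [map_one, mul_one, hx]
        simp [evP]
    · refine ⟨C (MvPolynomial.X i), 1, ?_, ?_⟩
      · rw [map_one]
        exact one_ne_zero
      · rw [map_one, mul_one, ← hx]
        simp [evP]
  | algebraMap x =>
    refine ⟨C (MvPolynomial.C x), 1, ?_, ?_⟩
    · rw [map_one]
      exact one_ne_zero
    · rw [map_one, mul_one]
      simp [evP]
  | add x y hx hy ihx ihy =>
    obtain ⟨p1, q1, h1, e1⟩ := ihx
    obtain ⟨p2, q2, h2, e2⟩ := ihy
    refine ⟨p1 * q2 + p2 * q1, q1 * q2, ?_, ?_⟩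
    · rw [map_mul]
      exact mul_ne_zero h1 h2
    · rw [map_mul, map_add, map_mul, map_mul, ← e1, ← e2]
      ring
  | inv x hx ihx =>
    obtain ⟨p, q, h1, e1⟩ := ihx
    by_cases hx0 : x = 0
    · refine ⟨0, 1, ?_, ?_⟩
      · rw [map_one]
        exact one_ne_zero
      · rw [hx0, inv_zero, zero_mul, map_zero]
    · refine ⟨q, p, ?_, ?_⟩
      · rw [← e1]
        exact mul_ne_zero hx0 h1
      · rw [← e1, ← mul_assoc, inv_mul_cancel₀ hx0, one_mul]
  | mul x y hx hy ihx ihy =>
    obtain ⟨p1, q1, h1, e1⟩ := ihx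
    obtain ⟨p2, q2, h2, e2⟩ := ihy
    refine ⟨p1 * p2, q1 * q2, ?_, ?_⟩
    · rw [map_mul]
      exact mul_ne_zero h1 h2
    · rw [map_mul, map_mul, ← e1, ← e2]
      ring

end WA83
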