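import Pool.Agent.H.MP_83e36b_nt.wa.Birat
import Pool.Agent.H.MP_83e36b_nt.wa.Local
import Pool.Agent.H.MP_83e36b_nt.I1a

/-! Weak approximation at finitely many places. -/

set_option autoImplicit false

open Polynomial

namespace WA83

open CM83 NR83 AnWA

universe u v w

/-- A point of `f = 0` with `q(x) ≠ 0`: the polynomial `B(x, y, s)` is not zero. -/
private theorem dens_pt {k : Type u} [Field k] {m a : ℕ} {f c e e' : (MvPolynomial (Fin m) k)[X]}
    {q : MvPolynomial (Fin m) k} {B : MvPolynomial (Fin a) (MvPolynomial (Fin m) k)[X]}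
    {s : Fin a →₀ ℕ} (hs : B.coeff s = c) (hq : Polynomial.C q = c * e + f * e')
    {L : Type v} [Field L] [Infinite L] (φ : k →+* L) (x : Fin m → L) (y : L)
    (hf : evP φ x y f = 0) (hx : MvPolynomial.eval₂ φ x q ≠ 0) :
    ∃ σ : Fin a → L, MvPolynomial.eval₂ (evP φ x y) σ B ≠ 0 := by
  have h1 : evP φ x y (Polynomial.C q) = MvPolynomial.eval₂ φ x q := by
    unfold evP
    simp
  have h2 : evP φ x y c ≠ 0 := by
    intro h0
    apply hx
    rw [← h1, hq, map_add, map_mul, map_mul, h0, hf, zero_mul, zero_mul, add_zero]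
  by_contra hcon
  push Not at hcon
  apply h2
  have h3 : MvPolynomial.map (evP φ x y) B = 0 := by
    refine MvPolynomial.funext fun σ => ?_
    rw [map_zero, ← MvPolynomial.eval₂_eq_eval_map]
    exact hcon σ
  rw [← hs, ← MvPolynomial.coeff_map, h3, MvPolynomial.coeff_zero]

/-- A point of `f = 0` over the algebraic closure. -/
private theorem dens_closure {k : Type u} [Field k] [CharZero k] {m : ℕ}
    {f : (MvPolynomial (Fin m) k)[X]} (hf : derivative f ≠ 0) {q : MvPolynomial (Fin m) k}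
    (hq : q ≠ 0) : ∃ (x : Fin m → AlgebraicClosure k) (y : AlgebraicClosure k),
      evP (algebraMap k (AlgebraicClosure k)) x y f = 0 ∧
      MvPolynomial.eval₂ (algebraMap k (AlgebraicClosure k)) x q ≠ 0 := by
  have hf0 : f ≠ 0 := by
    rintro rfl
    exact hf (by simp)
  have hdeg : 0 < f.natDegree := by
    by_contra h0
    apply hf
    exact Polynomial.derivative_of_natDegree_zero (by omega)
  have hlc : f.leadingCoeff ≠ 0 := Polynomial.leadingCoeff_ne_zero.2 hf0
  have hmul : q * f.leadingCoeff ≠ 0 := mul_ne_zero hq hlc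
  have hinj : Function.Injective (algebraMap k (AlgebraicClosure k)) :=
    (algebraMap k (AlgebraicClosure k)).injective
  have hmap : MvPolynomial.map (algebraMap k (AlgebraicClosure k)) (q * f.leadingCoeff) ≠ 0 := by
    intro h0
    apply hmul
    exact MvPolynomial.map_injective _ hinj (by rw [h0, map_zero])
  obtain ⟨x, hx⟩ : ∃ x : Fin m → AlgebraicClosure k,
      MvPolynomial.eval x (MvPolynomial.map (algebraMap k (AlgebraicClosure k))
        (q * f.leadingCoeff)) ≠ 0 := by
    by_contra hcon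
    push Not at hcon
    exact hmap (MvPolynomial.funext fun x => by rw [hcon x, map_zero])
  rw [← MvPolynomial.eval₂_eq_eval_map, MvPolynomial.eval₂_mul] at hx
  have hx1 := left_ne_zero_of_mul hx
  have hx2 := right_ne_zero_of_mul hx
  obtain ⟨p, hp⟩ : ∃ p, p = f.map (MvPolynomial.eval₂Hom (algebraMap k (AlgebraicClosure k)) x) :=
    ⟨_, rfl⟩
  have hpd : p.natDegree = f.natDegree := by
    rw [hp]
    exact Polynomial.natDegree_map_of_leadingCoeff_ne_zero _ hx2
  have hpd' : p.degree ≠ 0 := by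
    intro h0
    have := Polynomial.natDegree_eq_zero_iff_degree_le_zero.2 (le_of_eq h0)
    omega
  obtain ⟨y, hy⟩ := IsAlgClosed.exists_root p hpd'
  refine ⟨x, y, ?_, hx1⟩
  rw [Polynomial.IsRoot.def, hp, Polynomial.eval_map] at hy
  exact hy

/-- Proof: let `(x_i, y_i)` be the given points.  The coefficients of `B` at the generic point are
not all zero; `Generic.norm` for such a coefficient gives `q ≠ 0` in `k[x]`.  By `implicit`, `box`
there are `x'_i` near `x_i` with `q(x'_i) ≠ 0` and `y'_i` near `y_i` with `f(x'_i, y'_i) = 0`; so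
the polynomial `B(x'_i, y'_i, s)` is not zero and has a value `≠ 0` at some `σ_i` (infinite field).
`param` (ii) gives `τ_i`; choose `τ` in `k^b` near all `τ_i` (`FieldWA`), then `D(τ) ≠ 0` and by
`param` (i), for the field `k`, and continuity the point is near the `(x'_i, y'_i)`. -/
theorem dens {k : Type u} [Field k] [CharZero k] {m : ℕ}
    {f g : (MvPolynomial (Fin m) k)[X]} {F : Type w} [Field F] [Algebra k F] {ξ : Fin m → F}
    {η : F} (h : Generic f F ξ η) (hg : evP (algebraMap k F) ξ η g ≠ 0)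
    (hst : StablyIso k F k) {ι : Type v} [Finite ι] {K : ι → Type u}
    [∀ i, NormedField (K i)] [∀ i, CompleteSpace (K i)] (hK : ∀ i, ∃ x : K i, 1 < ‖x‖)
    (φ : ∀ i, k →+* K i) (hWA : FieldWA φ) (P : ∀ i, Pts f g (φ i)) {ε : ℝ} (hε : 0 < ε) :
    ∃ p : Pts f g (RingHom.id k), ∀ i,
      (∀ j, ‖(mapPts (φ i) p).1.1 j - (P i).1.1 j‖ < ε) ∧
        ‖(mapPts (φ i) p).1.2 - (P i).1.2‖ < ε := by
  classical
  obtain ⟨a, b, ⟨Ψ⟩⟩ := hst
  obtain ⟨D, C', Cc, B, hB, hi, hii⟩ := param.{u, u, w} h hg Ψ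
  obtain ⟨s, hs⟩ : ∃ s, (MvPolynomial.map (evP (algebraMap k F) ξ η) B).coeff s ≠ 0 := by
    by_contra hcon
    push Not at hcon
    exact hB (MvPolynomial.ext _ _ fun s => by rw [hcon s, MvPolynomial.coeff_zero])
  rw [MvPolynomial.coeff_map] at hs
  obtain ⟨q, e, e', hq0, hq⟩ := h.norm _ hs
  -- points with `q(x) ≠ 0` are in the image of the parametrisation
  have hpar : ∀ (L : Type u) [Field L] [Infinite L] (φ : k →+* L) (x : Fin m → L) (y : L),
      evP φ x y f = 0 → MvPolynomial.eval₂ φ x q ≠ 0 →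
      ∃ τ : Fin b → L, MvPolynomial.eval₂ φ τ D ≠ 0 ∧
        (∀ j, x j = MvPolynomial.eval₂ φ τ (Cc j) / MvPolynomial.eval₂ φ τ D) ∧
        y = MvPolynomial.eval₂ φ τ C' / MvPolynomial.eval₂ φ τ D := by
    intro L _ _ φ x y hf hx
    obtain ⟨σ, hσ⟩ := dens_pt rfl hq φ x y hf hx
    exact hii L φ x y σ hf hσ
  rcases isEmpty_or_nonempty ι with hι | hι
  · obtain ⟨x, y, hf, hx⟩ := dens_closure h.deg hq0
    have hinf : Infinite (AlgebraicClosure k) := inferInstance
    obtain ⟨τ, hτ, -⟩ := hpar (AlgebraicClosure k) (algebraMap k (AlgebraicClosure k)) x y hf hx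
    have hD : D ≠ 0 := by
      rintro rfl
      exact hτ (by rw [MvPolynomial.eval₂_zero])
    obtain ⟨t, ht⟩ : ∃ t : Fin b → k, MvPolynomial.eval t D ≠ 0 := by
      by_contra hcon
      push Not at hcon
      exact hD (MvPolynomial.funext fun x => by rw [hcon x, map_zero])
    exact ⟨⟨_, hi k (RingHom.id k) t ht⟩, fun i => (hι.false i).elim⟩
  · -- the local parameters
    have hloc : ∀ i, ∃ (τ : Fin b → K i) (δ : ℝ), 0 < δ ∧ ∀ t : Fin b → K i,
        (∀ j, ‖t j - τ j‖ < δ) → MvPolynomial.eval₂ (φ i) t D ≠ 0 ∧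
        (∀ j, ‖MvPolynomial.eval₂ (φ i) t (Cc j) / MvPolynomial.eval₂ (φ i) t D -
          (P i).1.1 j‖ < ε) ∧
        ‖MvPolynomial.eval₂ (φ i) t C' / MvPolynomial.eval₂ (φ i) t D - (P i).1.2‖ < ε := by
      intro i
      let _ : NontriviallyNormedField (K i) :=
        { (inferInstance : NormedField (K i)) with non_trivial := hK i }
      have hchar : CharZero (K i) := charZero_of_injective_ringHom (φ i).injective
      have hinf : Infinite (K i) := CharZero.infinite (K i)
      obtain ⟨δ, hδ, himp⟩ := implicit (φ i) f (P i).1.1 (P i).1.2 (P i).2.1 (P i).2.2.1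
        (half_pos hε)
      obtain ⟨x, hx, hqx⟩ := box (φ i) q hq0 (P i).1.1 (lt_min hδ (half_pos hε))
      obtain ⟨y, hy, hf⟩ := himp x fun j => (hx j).trans_le (min_le_left _ _)
      obtain ⟨τ, hτ, h1, h2⟩ := hpar (K i) (φ i) x y hf hqx
      have hcD := (cont' (φ i) D).continuousAt (x := τ)
      have hcC : ∀ j, ContinuousAt (fun t : Fin b → K i =>
          MvPolynomial.eval₂ (φ i) t (Cc j) / MvPolynomial.eval₂ (φ i) t D) τ := fun j =>
        (cont' (φ i) (Cc j)).continuousAt.div hcD hτ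
      have hcC' : ContinuousAt (fun t : Fin b → K i =>
          MvPolynomial.eval₂ (φ i) t C' / MvPolynomial.eval₂ (φ i) t D) τ :=
        (cont' (φ i) C').continuousAt.div hcD hτ
      have ev1 : ∀ᶠ t in nhds τ, MvPolynomial.eval₂ (φ i) t D ≠ 0 := hcD.eventually_ne hτ
      have ev2 : ∀ᶠ t in nhds τ, ∀ j, ‖MvPolynomial.eval₂ (φ i) t (Cc j) /
          MvPolynomial.eval₂ (φ i) t D - x j‖ < ε / 2 := by
        rw [Filter.eventually_all]
        intro j
        have := (hcC j).eventually (Metric.ball_mem_nhds _ (half_pos hε))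
        filter_upwards [this] with t ht
        rw [h1 j, ← dist_eq_norm]
        exact ht
      have ev3 : ∀ᶠ t in nhds τ, ‖MvPolynomial.eval₂ (φ i) t C' /
          MvPolynomial.eval₂ (φ i) t D - y‖ < ε / 2 := by
        have := hcC'.eventually (Metric.ball_mem_nhds _ (half_pos hε))
        filter_upwards [this] with t ht
        rw [h2, ← dist_eq_norm]
        exact ht
      obtain ⟨δ', hδ', hball⟩ := Metric.eventually_nhds_iff.1 (ev1.and (ev2.and ev3))
      refine ⟨τ, δ', hδ', fun t ht => ?_⟩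
      have htd : dist t τ < δ' := by
        rw [dist_pi_lt_iff hδ']
        intro j
        rw [dist_eq_norm]
        exact ht j
      obtain ⟨g1, g2, g3⟩ := hball htd
      refine ⟨g1, fun j => ?_, ?_⟩
      · have e1 : MvPolynomial.eval₂ (φ i) t (Cc j) / MvPolynomial.eval₂ (φ i) t D -
            (P i).1.1 j = (MvPolynomial.eval₂ (φ i) t (Cc j) / MvPolynomial.eval₂ (φ i) t D -
              x j) + (x j - (P i).1.1 j) := by ring
        rw [e1]
        refine (norm_add_le _ _).trans_lt ?_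
        have e2 := g2 j
        have e3 := (hx j).trans_le (min_le_right _ _)
        linarith
      · have e1 : MvPolynomial.eval₂ (φ i) t C' / MvPolynomial.eval₂ (φ i) t D -
            (P i).1.2 = (MvPolynomial.eval₂ (φ i) t C' / MvPolynomial.eval₂ (φ i) t D -
              y) + (y - (P i).1.2) := by ring
        rw [e1]
        refine (norm_add_le _ _).trans_lt ?_
        linarith
    choose τ δ hδ hτ using hloc
    obtain ⟨δ₀, hδ₀, hmin⟩ : ∃ δ₀ : ℝ, 0 < δ₀ ∧ ∀ i, δ₀ ≤ δ i := by
      obtain ⟨i₀, hi₀⟩ := Finite.exists_min δ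
      exact ⟨δ i₀, hδ i₀, hi₀⟩
    have hch : ∀ j : Fin b, ∃ t : k, ∀ i, ‖φ i t - τ i j‖ < δ₀ := fun j =>
      hWA (fun i => τ i j) δ₀ hδ₀
    choose t ht using hch
    have hcomp : ∀ (i : ι) (p : MvPolynomial (Fin b) k),
        φ i (MvPolynomial.eval₂ (RingHom.id k) t p) =
          MvPolynomial.eval₂ (φ i) (fun j => φ i (t j)) p := by
      intro i p
      rw [MvPolynomial.eval₂_comp_left, RingHom.comp_id]
      rfl
    have hall := fun i => hτ i (fun j => φ i (t j)) fun j => (ht j i).trans_le (hmin i)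
    have hDt : MvPolynomial.eval₂ (RingHom.id k) t D ≠ 0 := by
      intro h0
      obtain ⟨i⟩ := hι
      apply (hall i).1
      rw [← hcomp, h0, map_zero]
    refine ⟨⟨_, hi k (RingHom.id k) t hDt⟩, fun i => ⟨fun j => ?_, ?_⟩⟩
    · have e1 : (mapPts (φ i) (⟨_, hi k (RingHom.id k) t hDt⟩ : Pts f g (RingHom.id k))).1.1 j =
          MvPolynomial.eval₂ (φ i) (fun j => φ i (t j)) (Cc j) /
            MvPolynomial.eval₂ (φ i) (fun j => φ i (t j)) D := by
        rw [← hcomp, ← hcomp, ← map_div₀]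
        rfl
      rw [e1]
      exact (hall i).2.1 j
    · have e1 : (mapPts (φ i) (⟨_, hi k (RingHom.id k) t hDt⟩ : Pts f g (RingHom.id k))).1.2 =
          MvPolynomial.eval₂ (φ i) (fun j => φ i (t j)) C' /
            MvPolynomial.eval₂ (φ i) (fun j => φ i (t j)) D := by
        rw [← hcomp, ← hcomp, ← map_div₀]
        rfl
      rw [e1]
      exact (hall i).2.2

end WA83
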